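import Pool.Agent.Helper85.KPA.StC

/-!
# Project KP, chapter A part C, module CHM: homogeneity
-/

set_option autoImplicit false

namespace Pool.Agent.Helper36.KPA

open Pool.Agent.Helper85.KPA Pool.Agent.Helper5.KPA Pool.Agent.Helper52.KP MvPolynomial

private theorem ev_ps0 {m : ℕ} (w : Fin m → ℕ) (f : MvPolynomial (Fin m) ℂ) (c : ℂ)
    (z : Fin m → ℂ) :
    MvPolynomial.eval z ((Ps0 w f).eval (MvPolynomial.C c)) = ev f (scl w c z) := by
  induction f using MvPolynomial.induction_on with
  | C a =>
    have h1 : Ps0 w (MvPolynomial.C a) = Polynomial.C (MvPolynomial.C a) := by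
      unfold Ps0
      rw [← MvPolynomial.algebraMap_eq, AlgHom.commutes]
      rfl
    rw [h1, Polynomial.eval_C]
    simp [ev]
  | add p q hp hq =>
    rw [map_add, Polynomial.eval_add, map_add, hp, hq]
    simp [ev]
  | mul_X p j hp =>
    have h1 : Ps0 w (X j) = Polynomial.C (X j) * Polynomial.X ^ w j := by
      unfold Ps0
      rw [aeval_X]
    rw [map_mul, h1, Polynomial.eval_mul, map_mul, hp, Polynomial.eval_mul, Polynomial.eval_C,
      Polynomial.eval_pow, Polynomial.eval_X, map_mul, map_pow, eval_X, eval_C]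
    simp only [ev, map_mul, eval_X, scl]
    ring

private theorem ps0_one {m : ℕ} (w : Fin m → ℕ) (f : MvPolynomial (Fin m) ℂ) :
    (Ps0 w f).eval 1 = f := by
  refine MvPolynomial.funext fun z => ?_
  have h := ev_ps0 w f 1 z
  rw [map_one] at h
  rw [h]
  congr 1
  funext j
  simp [scl]

private theorem ps1_coeff {m : ℕ} (w : Fin m → ℕ) (a : MvPolynomial (Fin m) ℂ) (n : ℕ) :
    (Ps1 w a).coeff n = Polynomial.C ((Ps0 w a).coeff n) := by
  show (Polynomial.map (Polynomial.C : MvPolynomial (Fin m) ℂ →+* QQ m) (Ps0 w a)).coeff n = _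
  rw [Polynomial.coeff_map]

private theorem ps_coeff {m : ℕ} (w : Fin m → ℕ) (x : QQ m) (n l : ℕ) :
    ((Ps w x).coeff n).coeff l = (Ps0 w (x.coeff l)).coeff n := by
  induction x using Polynomial.induction_on' with
  | add p q hp hq =>
    rw [map_add, Polynomial.coeff_add, Polynomial.coeff_add, hp, hq, Polynomial.coeff_add,
      map_add, Polynomial.coeff_add]
  | monomial i a =>
    have h1 : Ps w (Polynomial.monomial i a) = Ps1 w a *
        Polynomial.C ((Polynomial.X : QQ m) ^ i) := by
      show Polynomial.eval₂ (Ps1 w) (Polynomial.C (Polynomial.X : QQ m)) _ = _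
      rw [Polynomial.eval₂_monomial, map_pow]
    rw [h1, Polynomial.coeff_mul_C, ps1_coeff, Polynomial.coeff_C_mul_X_pow,
      Polynomial.coeff_monomial]
    by_cases h : l = i
    · rw [if_pos h, if_pos h.symm]
    · rw [if_neg h, if_neg (Ne.symm h), map_zero, Polynomial.coeff_zero]

theorem hCHM : StCHM := by
  intro m w
  refine ⟨fun f k => ⟨fun h => ?_, fun h c z => ?_⟩, ps_coeff w, fun x k => ⟨fun h l => ?_,
    fun h => ?_⟩, fun x => ?_⟩
  · refine Polynomial.eq_of_infinite_eval_eq _ _ ?_
    refine (Set.infinite_range_of_injective (MvPolynomial.C_injective (Fin m) ℂ)).mono ?_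
    rintro _ ⟨c, rfl⟩
    show Polynomial.eval _ _ = Polynomial.eval _ _
    refine MvPolynomial.funext fun z => ?_
    rw [ev_ps0, h c z, Polynomial.eval_mul, Polynomial.eval_C, Polynomial.eval_pow,
      Polynomial.eval_X, map_mul, map_pow, eval_C]
    exact mul_comm _ _
  · rw [← ev_ps0, h, Polynomial.eval_mul, Polynomial.eval_C, Polynomial.eval_pow,
      Polynomial.eval_X, map_mul, map_pow, eval_C]
    exact mul_comm _ _
  · ext n : 1
    rw [← ps_coeff, h, Polynomial.coeff_C_mul_X_pow, Polynomial.coeff_C_mul_X_pow]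
    split_ifs
    · rfl
    · exact Polynomial.coeff_zero _
  · ext n l : 2
    rw [ps_coeff, h l, Polynomial.coeff_C_mul_X_pow, Polynomial.coeff_C_mul_X_pow]
    split_ifs
    · rfl
    · exact (Polynomial.coeff_zero _).symm
  · have h1 : (Polynomial.evalRingHom (1 : QQ m)).comp (Ps w) = RingHom.id (QQ m) := by
      refine Polynomial.ringHom_ext (fun a => ?_) ?_
      · show Polynomial.eval 1 (Ps w (Polynomial.C a)) = Polynomial.C a
        have h2 : Ps w (Polynomial.C a) = Ps1 w a := by
          show Polynomial.eval₂ (Ps1 w) (Polynomial.C (Polynomial.X : QQ m)) _ = _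
          rw [Polynomial.eval₂_C]
        have h3 : Ps1 w a = Polynomial.map (Polynomial.C : MvPolynomial (Fin m) ℂ →+* QQ m)
            (Ps0 w a) := rfl
        rw [h2, h3, Polynomial.eval_map, ← map_one (Polynomial.C : MvPolynomial (Fin m) ℂ →+* QQ m),
          Polynomial.eval₂_at_apply, ps0_one]
      · show Polynomial.eval 1 (Ps w Polynomial.X) = Polynomial.X
        have h2 : Ps w Polynomial.X = Polynomial.C (Polynomial.X : QQ m) := by
          show Polynomial.eval₂ (Ps1 w) (Polynomial.C (Polynomial.X : QQ m)) _ = _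
          rw [Polynomial.eval₂_X]
        rw [h2, Polynomial.eval_C]
    exact congrArg (fun f : QQ m →+* QQ m => f x) h1

end Pool.Agent.Helper36.KPA
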